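import Mathlib.RingTheory.PowerSeries.Inverse
import Mathlib.RingTheory.PowerSeries.WellKnown
import Mathlib.Tactic

/-!
# MP_acbfbf: a coefficientwise inequality between two q-series
-/

namespace Pool.Agent.Results.MP_acbfbf_co.Inequality

open PowerSeries Finset

noncomputable section

/-- `(q^a; q^b)_n = ∏_{k < n} (1 - q^(a + b k))`. -/
def poch (a b n : ℕ) : PowerSeries ℚ := ∏ k ∈ range n, (1 - X ^ (a + b * k))

/-- `(-q^a; q^b)_n = ∏_{k < n} (1 + q^(a + b k))`. -/
def pochNeg (a b n : ℕ) : PowerSeries ℚ := ∏ k ∈ range n, (1 + X ^ (a + b * k))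

/-- The Gaussian binomial coefficient with `q` replaced by `q^b`:
`(q^b; q^b)_n / ((q^b; q^b)_m (q^b; q^b)_{n-m})` for `m ≤ n`, and `0` otherwise. -/
def gauss (b n m : ℕ) : PowerSeries ℚ :=
  if m ≤ n then poch b b n * (poch b b m * poch b b (n - m))⁻¹ else 0

/-- All coefficients are nonnegative. -/
def Nonneg (f : PowerSeries ℚ) : Prop := ∀ n, 0 ≤ coeff n f

theorem Nonneg.add {f g : PowerSeries ℚ} (hf : Nonneg f) (hg : Nonneg g) : Nonneg (f + g) := by
  intro n
  rw [map_add]
  exact add_nonneg (hf n) (hg n)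

theorem Nonneg.mul {f g : PowerSeries ℚ} (hf : Nonneg f) (hg : Nonneg g) : Nonneg (f * g) := by
  intro n
  rw [coeff_mul]
  exact Finset.sum_nonneg fun p _ => mul_nonneg (hf _) (hg _)

theorem nonneg_one : Nonneg 1 := by
  intro n
  rw [coeff_one]
  split_ifs <;> norm_num

theorem nonneg_zero : Nonneg 0 := by
  intro n
  simp

theorem nonneg_X_pow (k : ℕ) : Nonneg (X ^ k) := by
  intro n
  rw [coeff_X_pow]
  split_ifs <;> norm_num

theorem nonneg_sum {ι : Type*} (s : Finset ι) (f : ι → PowerSeries ℚ) (h : ∀ i ∈ s, Nonneg (f i)) :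
    Nonneg (∑ i ∈ s, f i) := by
  intro n
  rw [map_sum]
  exact Finset.sum_nonneg fun i hi => h i hi n

theorem nonneg_prod {ι : Type*} (s : Finset ι) (f : ι → PowerSeries ℚ)
    (h : ∀ i ∈ s, Nonneg (f i)) : Nonneg (∏ i ∈ s, f i) :=
  Finset.prod_induction f Nonneg (fun _ _ ha hb => ha.mul hb) nonneg_one h

theorem constCoeff_one_sub {a : ℕ} (ha : 0 < a) :
    constantCoeff (1 - X ^ a : PowerSeries ℚ) = 1 := by
  rw [map_sub, map_one, map_pow, constantCoeff_X, zero_pow ha.ne', sub_zero]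

theorem one_sub_ne_zero {a : ℕ} (ha : 0 < a) : (1 - X ^ a : PowerSeries ℚ) ≠ 0 := by
  intro h
  have := constCoeff_one_sub ha
  rw [h, map_zero] at this
  exact zero_ne_one this

theorem mul_inv_one_sub {a : ℕ} (ha : 0 < a) :
    (1 - X ^ a : PowerSeries ℚ) * (1 - X ^ a)⁻¹ = 1 :=
  PowerSeries.mul_inv_cancel _ (by rw [constCoeff_one_sub ha]; exact one_ne_zero)

theorem inv_eq_add {a : ℕ} (ha : 0 < a) :
    (1 - X ^ a : PowerSeries ℚ)⁻¹ = 1 + (1 - X ^ a)⁻¹ * X ^ a := by
  linear_combination mul_inv_one_sub ha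

theorem nonneg_inv {a : ℕ} (ha : 0 < a) : Nonneg (1 - X ^ a : PowerSeries ℚ)⁻¹ := by
  intro n
  induction n using Nat.strong_induction_on with
  | _ n ih =>
    rw [inv_eq_add ha, map_add, coeff_mul_X_pow', coeff_one]
    split_ifs with h1 h2 h3
    · exact add_nonneg zero_le_one (ih _ (by omega))
    · norm_num
    · exact add_nonneg le_rfl (ih _ (by omega))
    · norm_num

/-- the coefficientwise order -/
def Le (f g : PowerSeries ℚ) : Prop := Nonneg (g - f)

theorem Le.refl (f : PowerSeries ℚ) : Le f f := by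
  unfold Le
  rw [sub_self]
  exact nonneg_zero

theorem Le.trans {f g h : PowerSeries ℚ} (h1 : Le f g) (h2 : Le g h) : Le f h := by
  have := Nonneg.add h1 h2
  unfold Le
  rwa [sub_add_sub_cancel'] at this

theorem Le.nonneg {f g : PowerSeries ℚ} (h : Le f g) (hf : Nonneg f) : Nonneg g := by
  have := hf.add h
  rwa [add_sub_cancel] at this

theorem Le.mul {f g f' g' : PowerSeries ℚ} (h : Le f g) (h' : Le f' g') (hf : Nonneg f)
    (hf' : Nonneg f') : Le (f * f') (g * g') := by
  have h1 : g * g' - f * f' = (g - f) * g' + f * (g' - f') := by ring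
  unfold Le
  rw [h1]
  exact (Nonneg.mul h (h'.nonneg hf')).add (hf.mul h')

theorem Le.prod {ι : Type*} (s : Finset ι) (f g : ι → PowerSeries ℚ)
    (hf : ∀ i ∈ s, Nonneg (f i)) (h : ∀ i ∈ s, Le (f i) (g i)) :
    Le (∏ i ∈ s, f i) (∏ i ∈ s, g i) := by
  classical
  induction s using Finset.induction_on with
  | empty => exact Le.refl _
  | insert a s ha ih =>
    rw [Finset.prod_insert ha, Finset.prod_insert ha]
    exact Le.mul (h a (mem_insert_self a s))
      (ih (fun i hi => hf i (mem_insert_of_mem hi)) fun i hi => h i (mem_insert_of_mem hi))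
      (hf a (mem_insert_self a s)) (nonneg_prod _ _ fun i hi => hf i (mem_insert_of_mem hi))

theorem one_le_inv {a : ℕ} (ha : 0 < a) : Le 1 (1 - X ^ a : PowerSeries ℚ)⁻¹ := by
  unfold Le
  have h : (1 - X ^ a : PowerSeries ℚ)⁻¹ - 1 = (1 - X ^ a)⁻¹ * X ^ a := by
    linear_combination mul_inv_one_sub ha
  rw [h]
  exact (nonneg_inv ha).mul (nonneg_X_pow a)

/-- Splitting a product over an initial segment by parity. -/
theorem prod_range_parity (f : ℕ → PowerSeries ℚ) (n : ℕ) :
    ∏ i ∈ range n, f (i + 1) =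
      (∏ i ∈ range ((n + 1) / 2), f (2 * i + 1)) * ∏ i ∈ range (n / 2), f (2 * (i + 1)) := by
  induction n with
  | zero => simp
  | succ n ih =>
    rw [Finset.prod_range_succ, ih]
    rcases Nat.even_or_odd' n with ⟨c, hc | hc⟩
    · subst hc
      have h1 : (2 * c + 1) / 2 = c := by omega
      have h2 : (2 * c + 1 + 1) / 2 = c + 1 := by omega
      have h3 : 2 * c / 2 = c := by omega
      rw [h1, h2, h3, Finset.prod_range_succ]
      ring
    · subst hc
      have h1 : (2 * c + 1 + 1) / 2 = c + 1 := by omega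
      have h2 : (2 * c + 1 + 1 + 1) / 2 = c + 1 := by omega
      have h3 : (2 * c + 1) / 2 = c := by omega
      rw [h1, h2, h3, Finset.prod_range_succ _ c, Finset.prod_range_succ _ c]
      have h4 : 2 * c + 1 + 1 = 2 * (c + 1) := by ring
      rw [h4]
      ring

theorem one_le_prod {ι : Type*} (s : Finset ι) (f : ι → PowerSeries ℚ)
    (h : ∀ i ∈ s, Le 1 (f i)) : Le 1 (∏ i ∈ s, f i) := by
  have := Le.prod s (fun _ => 1) f (fun _ _ => nonneg_one) h
  rwa [Finset.prod_const_one] at this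

theorem one_add_mul_inv (y a b : PowerSeries ℚ) (ha : (1 - y) * a = 1)
    (hb : (1 - y ^ 2) * b = 1) : (1 + y) * b = a := by
  linear_combination (-(1 + y) * b) * ha + a * hb

/-- A bounded form of Glaisher's theorem: partitions into distinct parts `≤ n` are at most as
numerous as partitions into odd parts `≤ 2m - 1` when `n ≤ 2m`. -/
theorem glaisher (n : ℕ) : ∀ t m : ℕ, 0 < t → n ≤ 2 * m →
    Le (∏ i ∈ range n, (1 + X ^ (t * (i + 1)))) (∏ i ∈ range m, (1 - X ^ (t * (2 * i + 1)))⁻¹) := by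
  induction n using Nat.strong_induction_on with
  | _ n ih =>
    intro t m ht hm
    rcases Nat.eq_zero_or_pos n with h0 | hpos
    · subst h0
      rw [Finset.prod_range_zero]
      exact one_le_prod _ _ fun i _ => one_le_inv (by positivity)
    · set a := (n + 1) / 2 with ha
      have h1 := ih (n / 2) (by omega) (2 * t) a (by omega) (by omega)
      have h2 := prod_range_parity (fun j => 1 + X ^ (t * j)) n
      rw [h2]
      have hn : ∀ k, Nonneg (1 + X ^ k : PowerSeries ℚ) := fun k =>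
        nonneg_one.add (nonneg_X_pow k)
      have h3 : Le ((∏ i ∈ range a, (1 + X ^ (t * (2 * i + 1)))) *
          ∏ i ∈ range (n / 2), (1 + X ^ (t * (2 * (i + 1)))))
          ((∏ i ∈ range a, (1 + X ^ (t * (2 * i + 1)))) *
            ∏ i ∈ range a, (1 - X ^ (2 * t * (2 * i + 1)))⁻¹) := by
        refine Le.mul (Le.refl _) ?_ (nonneg_prod _ _ fun i _ => hn _)
          (nonneg_prod _ _ fun i _ => hn _)
        have h4 : ∀ i : ℕ, t * (2 * (i + 1)) = 2 * t * (i + 1) := fun i => by ring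
        simp_rw [h4]
        exact h1
      refine h3.trans ?_
      rw [← Finset.prod_mul_distrib]
      have h5 : ∀ i : ℕ, (1 + X ^ (t * (2 * i + 1))) * (1 - X ^ (2 * t * (2 * i + 1)) : PowerSeries ℚ)⁻¹
          = (1 - X ^ (t * (2 * i + 1)))⁻¹ := by
        intro i
        have hp : 0 < t * (2 * i + 1) := by positivity
        have hp2 : 0 < 2 * t * (2 * i + 1) := by positivity
        have e : (X : PowerSeries ℚ) ^ (2 * t * (2 * i + 1)) = (X ^ (t * (2 * i + 1))) ^ 2 := by
          rw [← pow_mul]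
          congr 1
          ring
        have e1 := mul_inv_one_sub hp
        have e2 := mul_inv_one_sub hp2
        rw [e] at e2 ⊢
        exact one_add_mul_inv _ _ _ e1 e2
      simp_rw [h5]
      have ham : a ≤ m := by omega
      obtain ⟨c, rfl⟩ := Nat.exists_eq_add_of_le ham
      rw [Finset.prod_range_add]
      have h6 : Le (1 : PowerSeries ℚ) (∏ x ∈ range c, (1 - X ^ (t * (2 * (a + x) + 1)))⁻¹) :=
        one_le_prod _ _ fun i _ => one_le_inv (by positivity)
      have h7 := Le.mul (Le.refl (∏ x ∈ range a, (1 - X ^ (t * (2 * x + 1)) : PowerSeries ℚ)⁻¹)) h6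
        (nonneg_prod _ _ fun i _ => nonneg_inv (by positivity)) nonneg_one
      rwa [mul_one] at h7

theorem poch_ne_zero (a b n : ℕ) (ha : 0 < a) : poch a b n ≠ 0 :=
  Finset.prod_ne_zero_iff.mpr fun _ _ => one_sub_ne_zero (by omega)

theorem poch_constCoeff (a b n : ℕ) (ha : 0 < a) : constantCoeff (poch a b n) = 1 := by
  unfold poch
  rw [map_prod]
  exact Finset.prod_eq_one fun i _ => constCoeff_one_sub (by omega)

theorem poch_inv (a b n : ℕ) (ha : 0 < a) :
    (poch a b n)⁻¹ = ∏ k ∈ range n, (1 - X ^ (a + b * k) : PowerSeries ℚ)⁻¹ := by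
  rw [PowerSeries.inv_eq_iff_mul_eq_one (by rw [poch_constCoeff a b n ha]; exact one_ne_zero)]
  unfold poch
  rw [← Finset.prod_mul_distrib]
  refine Finset.prod_eq_one fun i _ => ?_
  rw [mul_comm]
  exact mul_inv_one_sub (by omega)

/-- `[N, 2]_{q^b} (1 - q^b)(1 - q^{2b}) = (1 - q^{b N}) (1 - q^{b (N-1)})`, with `N = n + 2`. -/
theorem gauss_two (b n : ℕ) (hb : 0 < b) :
    gauss b (n + 2) 2 * ((1 - X ^ b) * (1 - X ^ (2 * b))) =
      (1 - X ^ (b * (n + 1))) * (1 - X ^ (b * (n + 2))) := by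
  unfold gauss
  rw [if_pos (by omega), Nat.add_sub_cancel]
  have h2 : poch b b 2 = (1 - X ^ b) * (1 - X ^ (2 * b)) := by
    unfold poch
    rw [Finset.prod_range_succ, Finset.prod_range_succ, Finset.prod_range_zero, one_mul]
    congr 3 <;> ring
  have h3 : poch b b (n + 2) = poch b b n *
      ((1 - X ^ (b * (n + 1))) * (1 - X ^ (b * (n + 2)))) := by
    unfold poch
    rw [Finset.prod_range_succ, Finset.prod_range_succ, mul_assoc]
    congr 4 <;> ring
  rw [← h2, h3]
  have h4 : poch b b 2 * poch b b n * (poch b b 2 * poch b b n)⁻¹ = 1 := by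
    refine PowerSeries.mul_inv_cancel _ ?_
    rw [map_mul, poch_constCoeff _ _ _ hb, poch_constCoeff _ _ _ hb]
    norm_num
  linear_combination ((1 - X ^ (b * (n + 1))) * (1 - X ^ (b * (n + 2)))) * h4

theorem geom (a n : ℕ) : (∑ i ∈ range n, (X : PowerSeries ℚ) ^ (a * i)) * (1 - X ^ a) =
    1 - X ^ (a * n) := by
  have := geom_sum_mul_neg ((X : PowerSeries ℚ) ^ a) n
  simp_rw [← pow_mul] at this
  exact this

theorem geom' (a n : ℕ) (ha : 0 < a) : (1 - X ^ (a * n)) * (1 - X ^ a)⁻¹ =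
    (∑ i ∈ range n, (X : PowerSeries ℚ) ^ (a * i)) := by
  rw [← geom, mul_assoc, mul_inv_one_sub ha, mul_one]

/-- `[N,2]_q (-q^3;q)_{N-2} = [N,2]_{q²} (-q;q)_{N-2}`. -/
theorem transfer (n : ℕ) :
    gauss 1 (n + 2) 2 * pochNeg 3 1 n = gauss 2 (n + 2) 2 * pochNeg 1 1 n := by
  have h1 := gauss_two 1 n one_pos
  have h2 := gauss_two 2 n two_pos
  have h3 : pochNeg 1 1 n * ((1 + X ^ (n + 1)) * (1 + X ^ (n + 2))) =
      (1 + X) * (1 + X ^ 2) * pochNeg 3 1 n := by
    have e1 : pochNeg 1 1 (n + 2) = pochNeg 1 1 n * ((1 + X ^ (n + 1)) * (1 + X ^ (n + 2))) := by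
      unfold pochNeg
      rw [Finset.prod_range_succ, Finset.prod_range_succ, mul_assoc]
      congr 4 <;> ring
    have e2 : pochNeg 1 1 (n + 2) = (1 + X) * (1 + X ^ 2) * pochNeg 3 1 n := by
      unfold pochNeg
      rw [Finset.prod_range_succ', Finset.prod_range_succ', mul_comm _ (1 + X ^ (1 + 1 * 0)),
        mul_comm _ (1 + X ^ (1 + 1 * (0 + 1))), ← mul_assoc]
      have e3 : ∀ k, 1 + 1 * (k + 1 + 1) = 3 + 1 * k := fun k => by ring
      simp_rw [e3]
      simp
    rw [← e1, e2]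
  have hne : ((1 - X) * (1 - X ^ 2) * (1 - X ^ 4) : PowerSeries ℚ) ≠ 0 := by
    have := one_sub_ne_zero (a := 1) one_pos
    rw [pow_one] at this
    exact mul_ne_zero (mul_ne_zero this (one_sub_ne_zero two_pos)) (one_sub_ne_zero (by norm_num))
  refine mul_left_cancel₀ hne ?_
  simp only [one_mul, pow_one, mul_one] at h1
  have h4 : (X : PowerSeries ℚ) ^ (2 * (n + 1)) = (X ^ (n + 1)) ^ 2 := by rw [← pow_mul]; ring_nf
  have h5 : (X : PowerSeries ℚ) ^ (2 * (n + 2)) = (X ^ (n + 2)) ^ 2 := by rw [← pow_mul]; ring_nf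
  rw [h4, h5] at h2
  norm_num at h1 h2
  linear_combination (1 - X ^ 4) * pochNeg 3 1 n * h1 - (1 - X) * pochNeg 1 1 n * h2 -
    (1 - X) * (1 - X ^ (n + 1)) * (1 - X ^ (n + 2)) * h3

/-- `[N,2]_{q²} (1 - q²) = S (1 - q^M)` with `S` a sum of powers `q^{4i}`, `i < r`, and
`2 r ≤ N`, `M` even. -/
theorem gauss_factor (n : ℕ) : ∃ r c : ℕ, 2 * r ≤ n + 2 ∧
    gauss 2 (n + 2) 2 * (1 - X ^ 2) =
      (∑ i ∈ range r, (X : PowerSeries ℚ) ^ (4 * i)) * (1 - X ^ (2 * c)) := by
  have h2 := gauss_two 2 n two_pos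
  norm_num at h2
  rcases Nat.even_or_odd' n with ⟨k, hk | hk⟩
  · refine ⟨k + 1, n + 1, by omega, ?_⟩
    refine mul_right_cancel₀ (one_sub_ne_zero (a := 4) (by norm_num)) ?_
    have e := geom 4 (k + 1)
    have e' : 4 * (k + 1) = 2 * (n + 2) := by omega
    rw [e'] at e
    linear_combination h2 - (1 - X ^ (2 * (n + 1))) * e
  · refine ⟨k + 1, n + 2, by omega, ?_⟩
    refine mul_right_cancel₀ (one_sub_ne_zero (a := 4) (by norm_num)) ?_
    have e := geom 4 (k + 1)
    have e' : 4 * (k + 1) = 2 * (n + 1) := by omega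
    rw [e'] at e
    linear_combination h2 - (1 - X ^ (2 * (n + 2))) * e

theorem gauss_nonneg (n : ℕ) : Nonneg (gauss 2 (n + 2) 2) := by
  obtain ⟨r, c, -, h⟩ := gauss_factor n
  have h1 : gauss 2 (n + 2) 2 = (∑ i ∈ range r, (X : PowerSeries ℚ) ^ (4 * i)) *
      ∑ i ∈ range c, (X : PowerSeries ℚ) ^ (2 * i) := by
    refine mul_right_cancel₀ (one_sub_ne_zero (a := 2) two_pos) ?_
    rw [h, mul_assoc, geom]
  rw [h1]
  exact (nonneg_sum _ _ fun i _ => nonneg_X_pow _).mul (nonneg_sum _ _ fun i _ => nonneg_X_pow _)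

/-- The sum over all `q^{2i}`, `i < m`, dominates the sum over `q^{4i}`, `i < r`, if
`2 r ≤ m + 1`. -/
theorem nonneg_S (r m : ℕ) (h : 2 * r ≤ m + 1) :
    Nonneg ((∑ i ∈ range m, (X : PowerSeries ℚ) ^ (2 * i)) -
      ∑ i ∈ range r, (X : PowerSeries ℚ) ^ (4 * i)) := by
  have h1 : ∑ i ∈ range r, (X : PowerSeries ℚ) ^ (4 * i) =
      ∑ j ∈ (range r).image (fun i => 2 * i), (X : PowerSeries ℚ) ^ (2 * j) := by
    rw [Finset.sum_image]
    · refine Finset.sum_congr rfl fun i _ => ?_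
      congr 1
      ring
    · intro a _ b _ hab
      simpa using hab
  have h2 : (range r).image (fun i => 2 * i) ⊆ range m := by
    intro j hj
    rw [Finset.mem_image] at hj
    obtain ⟨i, hi, rfl⟩ := hj
    rw [Finset.mem_range] at hi ⊢
    omega
  rw [h1, ← Finset.sum_sdiff h2, add_sub_cancel_right]
  exact nonneg_sum _ _ fun i _ => nonneg_X_pow _

/-- **The inequality of Q1.** For every positive integer `L`, every coefficient of the left side
is at least the corresponding coefficient of the right side. -/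
theorem result (L : ℕ) (hL : 0 < L) (n : ℕ) :
    coeff n ((X : PowerSeries ℚ) * gauss 1 (L - 2) 2 * pochNeg 3 1 (L - 4)) ≤
      coeff n ((poch 1 2 L)⁻¹ *
        ((1 - X ^ (2 * L - 2)) * (1 - X ^ 2)⁻¹ + X ^ 3 * gauss 2 (L - 2) 2)) := by
  have hU : Nonneg (poch 1 2 L)⁻¹ := by
    rw [poch_inv 1 2 L one_pos]
    exact nonneg_prod _ _ fun i _ => nonneg_inv (by omega)
  have hS : (1 - X ^ (2 * L - 2)) * (1 - X ^ 2 : PowerSeries ℚ)⁻¹ =
      ∑ i ∈ range (L - 1), (X : PowerSeries ℚ) ^ (2 * i) := by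
    rw [← geom' 2 (L - 1) two_pos]
    congr 4
    omega
  rw [hS]
  rcases Nat.lt_or_ge L 4 with h4 | h4
  · have h1 : gauss 1 (L - 2) 2 = 0 := by
      unfold gauss
      rw [if_neg (by omega)]
    have h2 : gauss 2 (L - 2) 2 = 0 := by
      unfold gauss
      rw [if_neg (by omega)]
    rw [h1, h2, mul_zero, zero_mul, mul_zero, add_zero, map_zero]
    exact (hU.mul (nonneg_sum _ _ fun i _ => nonneg_X_pow _)) n
  · obtain ⟨k, rfl⟩ : ∃ k, L = k + 4 := ⟨L - 4, by omega⟩
    have e1 : k + 4 - 2 = k + 2 := by omega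
    have e2 : k + 4 - 4 = k := by omega
    have e3 : k + 4 - 1 = k + 3 := by omega
    rw [e1, e2, e3, mul_assoc, transfer k]
    obtain ⟨r, c, hr, hG⟩ := gauss_factor k
    set G := gauss 2 (k + 2) 2 with hGdef
    set U := (poch 1 2 (k + 4))⁻¹ with hUdef
    set P := pochNeg 1 1 k with hP
    set S1 := ∑ i ∈ range (k + 3), (X : PowerSeries ℚ) ^ (2 * i) with hS1
    set S2 := ∑ i ∈ range r, (X : PowerSeries ℚ) ^ (4 * i) with hS2
    have hGn : Nonneg G := gauss_nonneg k
    have hS12 : Nonneg (S1 - S2) := nonneg_S r (k + 3) (by omega)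
    have hS2n : Nonneg S2 := nonneg_sum _ _ fun i _ => nonneg_X_pow _
    have hD : Nonneg (U - P) := by
      have h1 := glaisher k 1 (k + 4) one_pos (by omega)
      have h2 : P = ∏ i ∈ range k, (1 + (X : PowerSeries ℚ) ^ (1 * (i + 1))) := by
        rw [hP]
        unfold pochNeg
        refine Finset.prod_congr rfl fun i _ => ?_
        congr 2
        ring
      have h3 : U = ∏ i ∈ range (k + 4), (1 - (X : PowerSeries ℚ) ^ (1 * (2 * i + 1)))⁻¹ := by
        rw [hUdef, poch_inv 1 2 _ one_pos]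
        refine Finset.prod_congr rfl fun i _ => ?_
        congr 3
        ring
      rw [h2, h3]
      exact h1
    have hU1 : Nonneg (U * (1 - X)) := by
      rw [hUdef, poch_inv 1 2 _ one_pos, Finset.prod_range_succ']
      have h1 : (1 - X ^ (1 + 2 * 0) : PowerSeries ℚ)⁻¹ * (1 - X) = 1 := by
        have := mul_inv_one_sub (a := 1) one_pos
        rw [pow_one] at this
        rw [mul_zero, add_zero, pow_one, mul_comm]
        exact this
      rw [mul_assoc, h1, mul_one]
      exact nonneg_prod _ _ fun i _ => nonneg_inv (by omega)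
    have key : U * (S1 + X ^ 3 * G) - X * (G * P) =
        X * G * (U - P) + (U * (S1 - S2) + (U * (1 - X) * S2 + U * X ^ (1 + 2 * c) * S2)) := by
      linear_combination (-U * X) * hG
    have hX : Nonneg (X : PowerSeries ℚ) := by
      have := nonneg_X_pow 1
      rwa [pow_one] at this
    have hfin : Nonneg (U * (S1 + X ^ 3 * G) - X * (G * P)) := by
      rw [key]
      exact ((hX.mul hGn).mul hD).add ((hU.mul hS12).add
        ((hU1.mul hS2n).add ((hU.mul (nonneg_X_pow _)).mul hS2n)))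
    have := hfin n
    rw [map_sub] at this
    linarith

end

end Pool.Agent.Results.MP_acbfbf_co.Inequality
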